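import Pool.Agent.Y920.EP.Stm

/-! EP-PCD: rigid elements, no exceptions if squares in `H` come from `H`. -/

set_option autoImplicit false

namespace Pool.Agent.Y98.EP

open Pool.Agent.Y920.EP
open Pool.Agent.Y920.ETC (PCD Sm)

section
variable {F : Type} [Field F] {T H : Subgroup Fˣ}

theorem rig (h : RP T H) {x : Fˣ} (hx : x ∉ H) :
    ∃ u : Fˣ, (u : F) = 1 + x ∧ (u ∈ T ∨ x⁻¹ * u ∈ T) := by
  rcases h.rigid x hx with ⟨t, ht, e⟩ | ⟨t, ht, e⟩
  · exact ⟨t, e, Or.inl ht⟩
  · exact ⟨x * t, e, Or.inr (by rwa [inv_mul_cancel_left])⟩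

theorem rig' (h : RP T H) {x u : Fˣ} (hx : x ∉ H) (hu : (u : F) = 1 + x) :
    u ∈ T ∨ x⁻¹ * u ∈ T := by
  obtain ⟨v, hv, h1⟩ := rig h hx
  have : u = v := Units.ext (hu.trans hv.symm)
  rwa [this]

theorem sm_inv (h : RP T H) {x : Fˣ} (hx : Sm T H x) : ¬ Sm T H x⁻¹ := by
  rintro ⟨_, t', ht', e'⟩
  obtain ⟨hx1, t, ht, e⟩ := hx
  have hx0 : (x : F) ≠ 0 := x.ne_zero
  have h1 : x = t / t' := by
    apply Units.ext
    rw [Units.val_div_eq_div_val, eq_div_iff t'.ne_zero, e, e', Units.val_inv_eq_inv_val]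
    field_simp
    ring
  exact hx1 (h.le (h1 ▸ T.div_mem ht ht'))

theorem sm_or (h : RP T H) {x : Fˣ} (hx : x ∉ H) : Sm T H x ∨ Sm T H x⁻¹ := by
  rcases h.rigid x hx with ⟨t, ht, e⟩ | ⟨t, ht, e⟩
  · exact Or.inl ⟨hx, t, ht, e⟩
  · refine Or.inr ⟨fun h' => hx (inv_mem_iff.1 h'), t, ht, ?_⟩
    have hx0 : (x : F) ≠ 0 := x.ne_zero
    rw [Units.val_mul] at e
    rw [Units.val_inv_eq_inv_val]
    field_simp
    linear_combination e

/-- not in `H` after multiplication by an element of `T` -/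
theorem nmul (h : RP T H) {x t : Fˣ} (hx : x ∉ H) (ht : t ∈ T) : x * t ∉ H := fun h' =>
  hx ((H.mul_mem_cancel_right (h.le ht)).1 h')

theorem L1 (h : RP T H) {x y c : Fˣ} (hx : Sm T H x) (hy : Sm T H y) (hxy : x * y ∉ H)
    (hc : (c : F) = 1 + y) : Sm T H (x * y) ∧ Sm T H (x * c) := by
  obtain ⟨hxH, d, hd, ed⟩ := hx
  obtain ⟨hyH, c', hc', ec'⟩ := hy
  obtain rfl : c = c' := Units.ext (hc.trans ec'.symm)
  have hxc : x * c ∉ H := nmul h hxH hc'
  obtain ⟨s, hs, h1⟩ := rig h hxc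
  have h1' : s ∈ T ∨ x⁻¹ * s ∈ T := by
    rcases h1 with h1 | h1
    · exact Or.inl h1
    · right
      have e : x⁻¹ * s = c * ((x * c)⁻¹ * s) := by
        rw [mul_inv_rev, mul_assoc c⁻¹, mul_inv_cancel_left]
      rw [e]
      exact T.mul_mem hc' h1
  have hyd : x * y * d⁻¹ ∉ H := nmul h hxy (T.inv_mem hd)
  have e2 : ((d⁻¹ * s : Fˣ) : F) = 1 + ((x * y * d⁻¹ : Fˣ) : F) := by
    have hd0 : (d : F) ≠ 0 := d.ne_zero
    simp only [Units.val_mul, Units.val_inv_eq_inv_val] at hs ⊢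
    rw [hs, hc]
    field_simp
    rw [ed]
    ring
  have h2' : s ∈ T ∨ (x * y)⁻¹ * s ∈ T := by
    rcases rig' h hyd e2 with h2 | h2
    · left
      have := T.mul_mem hd h2
      rwa [mul_inv_cancel_left] at this
    · right
      rwa [mul_inv_rev, inv_inv, mul_comm d, mul_assoc, mul_inv_cancel_left] at h2
  have hsT : s ∈ T := by
    rcases h1' with h1' | h1'
    · exact h1'
    · rcases h2' with h2' | h2'
      · exact h2'
      · exfalso
        have h3 := T.div_mem h1' h2'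
        have e : x⁻¹ * s / ((x * y)⁻¹ * s) = y := by
          rw [mul_div_mul_right_eq_div, mul_inv, div_mul_eq_div_div, div_self', one_div, inv_inv]
        rw [e] at h3
        exact hyH (h.le h3)
  refine ⟨?_, hxc, s, hsT, hs⟩
  obtain ⟨u, hu, hu'⟩ := rig h hxy
  rcases hu' with hu' | hu'
  · exact ⟨hxy, u, hu', hu⟩
  exfalso
  have hyt : y * ((x * y)⁻¹ * u) ∉ H := nmul h hyH hu'
  have e3 : ((x⁻¹ * s : Fˣ) : F) = 1 + ((y * ((x * y)⁻¹ * u) : Fˣ) : F) := by
    have hx0 : (x : F) ≠ 0 := x.ne_zero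
    have hy0 : (y : F) ≠ 0 := y.ne_zero
    simp only [Units.val_mul, Units.val_inv_eq_inv_val] at hs hu ⊢
    rw [hs, hu, hc]
    field_simp
    ring
  rcases rig' h hyt e3 with h3 | h3
  · have h4 := T.div_mem hsT h3
    have e : s / (x⁻¹ * s) = x := by
      rw [div_mul_eq_div_div_swap, div_self', one_div, inv_inv]
    rw [e] at h4
    exact hxH (h.le h4)
  · have h4 := T.mul_mem (T.div_mem hsT h3) (T.inv_mem hu')
    have e : s / ((y * ((x * y)⁻¹ * u))⁻¹ * (x⁻¹ * s)) * ((x * y)⁻¹ * u)⁻¹ = x * y := by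
      apply Units.ext
      have hx0 : (x : F) ≠ 0 := x.ne_zero
      have hy0 : (y : F) ≠ 0 := y.ne_zero
      have hu0 : (u : F) ≠ 0 := u.ne_zero
      have hs0 : (s : F) ≠ 0 := s.ne_zero
      simp only [Units.val_mul, Units.val_inv_eq_inv_val, Units.val_div_eq_div_val]
      field_simp
    rw [e] at h4
    exact hxy (h.le h4)

theorem L2 (h : RP T H) {x y d : Fˣ} (hx : Sm T H x) (hy : Sm T H y) (hxy : x / y ∉ T)
    (hd : (d : F) = 1 + x) : Sm T H (y / d) := by
  obtain ⟨hxH, d', hdT, ed⟩ := hx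
  obtain ⟨hyH, c, hcT, ec⟩ := hy
  obtain rfl : d = d' := Units.ext (hd.trans ed.symm)
  have h1 : y * d⁻¹ ∉ H := nmul h hyH (T.inv_mem hdT)
  have h2 : x * c⁻¹ ∉ H := nmul h hxH (T.inv_mem hcT)
  obtain ⟨u, hu, hu'⟩ := rig h h1
  have hd0 : (d : F) ≠ 0 := d.ne_zero
  have hc0 : (c : F) ≠ 0 := c.ne_zero
  have e1 : ((c⁻¹ * (d * u) : Fˣ) : F) = 1 + ((x * c⁻¹ : Fˣ) : F) := by
    simp only [Units.val_mul, Units.val_inv_eq_inv_val] at hu ⊢
    rw [hu]
    field_simp
    rw [ed, ec]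
    ring
  rw [div_eq_mul_inv]
  refine ⟨h1, u, ?_, hu⟩
  rcases hu' with hu' | hu'
  · exact hu'
  exfalso
  -- `u ∈ y T`, and `d u ∈ T ∪ x T`
  rcases rig' h h2 e1 with h3 | h3
  · have h4 : u ∈ T := by
      have h5 := T.mul_mem (T.inv_mem hdT) (T.mul_mem hcT h3)
      rwa [mul_inv_cancel_left, inv_mul_cancel_left] at h5
    have h5 := T.div_mem h4 hu'
    have e : u / ((y * d⁻¹)⁻¹ * u) = y * d⁻¹ := by
      rw [div_mul_eq_div_div_swap, div_self', one_div, inv_inv]
    rw [e] at h5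
    exact h1 (h.le h5)
  · apply hxy
    -- h3 : (x c⁻¹)⁻¹ * (c⁻¹ * (d * u)) ∈ T, hu' : (y d⁻¹)⁻¹ * u ∈ T
    have e : (y * d⁻¹)⁻¹ * u / ((x * c⁻¹)⁻¹ * (c⁻¹ * (d * u))) = x / y := by
      apply Units.ext
      have hx0 : (x : F) ≠ 0 := x.ne_zero
      have hy0 : (y : F) ≠ 0 := y.ne_zero
      have hu0 : (u : F) ≠ 0 := u.ne_zero
      simp only [Units.val_mul, Units.val_inv_eq_inv_val, Units.val_div_eq_div_val]
      field_simp
    rw [← e]
    exact T.div_mem hu' h3

variable (h : RP T H) (h2 : ∀ x : Fˣ, x * x ∈ H → x ∈ H)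

include h h2 in
theorem sm_sq {x : Fˣ} (hx : Sm T H x) : Sm T H (x * x) := by
  obtain ⟨c, _, hc⟩ := hx.2
  exact (L1 h hx hx (fun h' => hx.1 (h2 x h')) hc).1

include h h2 in
theorem main : PCD T H := by
  refine ⟨?_, ?_, ?_⟩
  · intro x y z hx hy hxy hz
    have hxyz : x * y * z ∉ H := fun h' => hz.1 ((H.mul_mem_cancel_left hxy).1 h')
    obtain ⟨cx, _, hcx⟩ := hx.2
    obtain ⟨cy, _, hcy⟩ := hy.2
    obtain ⟨cz, _, hcz⟩ := hz.2
    by_cases h3 : x * z ∈ H
    · by_cases h4 : y * z ∈ H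
      · exfalso
        apply hx.1
        apply h2
        have h5 := H.div_mem (H.mul_mem h3 hxy) h4
        have e : x * z * (x * y) / (y * z) = x * x := by
          rw [div_eq_iff_eq_mul]
          simp only [mul_comm, mul_left_comm]
        rwa [e] at h5
      · have h5 := (L1 h hy hz h4 hcz).1
        have e : x * y * z = y * z * x := by rw [mul_assoc, mul_comm]
        rw [e] at hxyz ⊢
        exact (L1 h h5 hx hxyz hcx).1
    · have h5 := (L1 h hx hz h3 hcz).1
      have e : x * y * z = x * z * y := mul_right_comm x y z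
      rw [e] at hxyz ⊢
      exact (L1 h h5 hy hxyz hcy).1
  · intro a x c ha hx hc
    have hcT : c ∈ T := by
      obtain ⟨c', hc', e⟩ := hx.2
      rwa [Units.ext (hc.trans e.symm)]
    have hac : a * c ∉ H := nmul h ha.1 hcT
    by_cases h3 : a * x ∈ H
    · rcases sm_or h hac with h4 | h4
      · exact h4
      exfalso
      have ha2 := sm_sq h h2 ha
      have h5 : a * a * x ∉ H := by
        rw [mul_assoc]
        exact fun h' => ha.1 ((H.mul_mem_cancel_right h3).1 h')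
      have h6 := (L1 h ha2 hx h5 hc).2
      have h7 : a * a * c * x ∉ H := by
        rw [mul_right_comm]
        exact nmul h h5 hcT
      have h8 := (L1 h h6 hx h7 hc).2
      have e : a * a * c * c = (a * c) * (a * c) := by
        simp only [mul_comm, mul_left_comm]
      rw [e] at h8
      have h9 := sm_sq h h2 h4
      rw [← mul_inv] at h9
      exact sm_inv h h8 h9
    · exact (L1 h ha hx h3 hc).2
  · intro x a b hx ha hb e
    obtain ⟨d, hdT, hd⟩ := hx.2
    have hdab : d = a * b := Units.ext (by rw [hd, Units.val_mul, e])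
    have h3 : b⁻¹ = a / d := by
      rw [hdab, div_mul_eq_div_div, div_self', one_div]
    have h4 : x / a ∈ T := by
      by_contra h5
      have h6 := L2 h hx ha h5 hd
      rw [← h3] at h6
      exact sm_inv h hb h6
    have ha2 := sm_sq h h2 ha
    have hb2 := sm_sq h h2 hb
    have h5 : x / (a * a) ∈ T := by
      by_contra h6
      have h7 := L2 h hx ha2 h6 hd
      have h8 : x / (a * a / d) ∉ T := by
        intro h9
        apply h6
        have h10 := T.div_mem h9 hdT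
        have e1 : x / (a * a / d) / d = x / (a * a) := by
          rw [div_div_eq_mul_div, mul_div_right_comm, mul_div_cancel_right]
        rwa [e1] at h10
      have h9 := L2 h hx h7 h8 hd
      have e1 : a * a / d / d = (b * b)⁻¹ := by
        rw [mul_inv, h3]
        simp only [div_eq_mul_inv, mul_comm, mul_left_comm, mul_assoc]
      rw [e1] at h9
      exact sm_inv h hb2 h9
    have h6 := T.div_mem h4 h5
    have e1 : x / a / (x / (a * a)) = a := by
      rw [div_div_div_cancel_left, mul_div_cancel_right]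
    rw [e1] at h6
    exact ha.1 (h.le h6)

end

theorem t_PCD : Pool.Agent.Y920.EP.S_PCD := by
  intro F _ T H h h2
  exact main h h2

end Pool.Agent.Y98.EP
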